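import Pool.Agent.W669.HD.Stm5
import Pool.Agent.W669.HD.Sq
import Pool.Agent.W150.HD.SUM

/-!
# Project HD5 (helper669): components on five vectors
-/

set_option autoImplicit false

namespace Pool.Agent.W298.HD

open Pool.Agent.W669.HD Pool.Agent.W666.GB Pool.Agent.W150.HD Finset

section ex

variable {V : Type} [NormedAddCommGroup V] [InnerProductSpace ℝ V]
variable {ι : Type} [Fintype ι] {f : ι → V} {K : V → V → V → V → ℝ}

theorem e1 (hK : BiForm K) (hr : ∀ x y z w, K (x - ∑ i, inner ℝ (f i) x • f i) y z w = 0) (x y z w : V) :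
    K x y z w = ∑ i, inner ℝ (f i) x * K (f i) y z w := by
  classical
  have h1 : x = (∑ i, inner ℝ (f i) x • f i) + (x - ∑ i, inner ℝ (f i) x • f i) := by abel
  conv_lhs => rw [h1]
  rw [hK.add, hr, add_zero, sumK hK]

theorem e2 (hK : BiForm K) (hr : ∀ x y z w, K (x - ∑ i, inner ℝ (f i) x • f i) y z w = 0) (x y z w : V) :
    K x y z w = ∑ i, inner ℝ (f i) y * K x (f i) z w := by
  have h1 : K x y z w = - K y x z w := by rw [hK.anti x y]; ring
  rw [h1, e1 hK hr, ← sum_neg_distrib]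
  refine sum_congr rfl fun i _ => ?_
  rw [hK.anti x (f i)]; ring

theorem e3 (hK : BiForm K) (hr : ∀ x y z w, K (x - ∑ i, inner ℝ (f i) x • f i) y z w = 0) (x y z w : V) :
    K x y z w = ∑ i, inner ℝ (f i) z * K x y (f i) w := by
  rw [← hK.pair, e1 hK hr]
  refine sum_congr rfl fun i _ => ?_
  rw [hK.pair]

theorem e4 (hK : BiForm K) (hr : ∀ x y z w, K (x - ∑ i, inner ℝ (f i) x • f i) y z w = 0) (x y z w : V) :
    K x y z w = ∑ i, inner ℝ (f i) w * K x y z (f i) := by
  rw [← hK.pair, e2 hK hr]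
  refine sum_congr rfl fun i _ => ?_
  rw [hK.pair]

theorem eall (hK : BiForm K) (hr : ∀ x y z w, K (x - ∑ i, inner ℝ (f i) x • f i) y z w = 0) (x y z w : V) :
    K x y z w = ∑ p, ∑ q, ∑ r, ∑ s, inner ℝ (f p) x * inner ℝ (f q) y * inner ℝ (f r) z * inner ℝ (f s) w *
      K (f p) (f q) (f r) (f s) := by
  rw [e1 hK hr]
  refine sum_congr rfl fun p _ => ?_
  rw [e2 hK hr, mul_sum]
  refine sum_congr rfl fun q _ => ?_
  rw [e3 hK hr, mul_sum, mul_sum]
  refine sum_congr rfl fun r _ => ?_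
  rw [e4 hK hr, mul_sum, mul_sum, mul_sum]
  refine sum_congr rfl fun s _ => ?_
  ring

end ex

theorem VEC5 : Pool.Agent.W669.HD.S_VEC5 := by
  classical
  intro m V _ _ e R W hR hW hL hS
  obtain ⟨ω, hω, hop⟩ := hS
  have hfin : FiniteDimensional ℝ V := Module.Finite.of_basis e.toBasis
  let d := Module.finrank ℝ W
  let b := stdOrthonormalBasis ℝ W
  have hbo : Orthonormal ℝ (fun j => (b j : V)) := b.orthonormal.comp_linearIsometry W.subtypeₗᵢ
  obtain ⟨f, hf⟩ : ∃ f : Fin 5 → V, f = fun p => if h : p.1 < Module.finrank ℝ W then (b ⟨p.1, h⟩ : V) else 0 :=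
    ⟨_, rfl⟩
  have hpad : ∀ x : V, ∑ p : Fin 5, inner ℝ (f p) x • f p = ∑ j, inner ℝ (b j : V) x • (b j : V) := by
    intro x
    symm
    apply Finset.sum_of_injOn (fun j : Fin (Module.finrank ℝ W) => Fin.castLE hW j)
    · intro i _ j _ h
      exact Fin.castLE_injective hW h
    · intro i _; simp
    · intro p _ hp
      have h1 : ¬ p.1 < Module.finrank ℝ W := by
        intro h
        exact hp ⟨⟨p.1, h⟩, by simp, Fin.ext rfl⟩
      rw [hf]
      simp [h1]
    · intro j _
      rw [hf]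
      simp
  have hperp : ∀ x : V, x - ∑ p : Fin 5, inner ℝ (f p) x • f p ∈ Wᗮ := by
    intro x
    rw [hpad, Submodule.mem_orthogonal]
    intro u hu
    have h1 : u = ∑ j, (b.repr ⟨u, hu⟩ j) • (b j : V) := by
      have h2 := b.sum_repr ⟨u, hu⟩
      have h3 := congrArg (fun v : W => (v : V)) h2
      simp only [Submodule.coe_sum, Submodule.coe_smul] at h3
      exact h3.symm
    rw [h1, sum_inner]
    apply Finset.sum_eq_zero
    intro j _
    rw [real_inner_smul_left, rest hbo, mul_zero]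
  have hr : ∀ x y z w, R (x - ∑ i, inner ℝ (f i) x • f i) y z w = 0 := fun x y z w => hL _ (hperp x) y z w
  have hbi := curv_bi hR
  have hK : BiForm (negT (addT R ω)) := neg_bi (add_bi hbi hω.toBiForm)
  obtain ⟨n, μ, hμ1, hμ2⟩ := hK.squares f hop
  refine ⟨fun j p => inner ℝ (f p) (e j), fun p q s t => - R (f p) (f q) (f s) (f t),
    fun p q s t => - ω (f p) (f q) (f s) (f t), n, μ, ?_, ?_, ?_, hμ1, ?_⟩
  · intro i j k l
    change - R (e i) (e j) (e k) (e l) = _
    rw [eall hbi hr]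
    simp only [← sum_neg_distrib]
    refine sum_congr rfl fun p _ => sum_congr rfl fun q _ => sum_congr rfl fun s _ =>
      sum_congr rfl fun t _ => by ring
  · refine ⟨?_, ?_, ?_⟩
    · intro i j k l
      rw [hR.anti]
    · intro i j k l
      rw [hR.pair]
    · intro i j k l
      have := hR.bianchi (f i) (f j) (f k) (f l)
      linarith
  · refine ⟨?_, ?_, ?_⟩
    · intro i j k l
      rw [hω.anti]
    · intro i j k l
      rw [hω.alt]
    · intro i j k l
      rw [hω.toBiForm.a34]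
  · intro i j k l
    rw [← hμ2]
    simp only [negT, addT]
    ring

end Pool.Agent.W298.HD
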